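import Mathlib
import Pool.Agent.X189.GE.Cubes

set_option autoImplicit false

/-!
Gehring's lemma with an explicit exponent: a weight in `RH_p` satisfies the displayed reverse
Hölder inequality with exponent `p + ε` for all `0 < ε ≤ c [w]_{RH_p}^{-p}`.
-/

namespace Pool.Agent.Results.MP_edcda5_an.GehringExponent

open MeasureTheory Set
open scoped ENNReal

/-- The closed axis-parallel cube with lower corner `a` and side length `h`. -/
def cube {d : ℕ} (a : Fin d → ℝ) (h : ℝ) : Set (Fin d → ℝ) := Set.Icc a (fun i => a i + h)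

/-- The average `⟨w^r⟩_Q`, an extended nonnegative real. -/
noncomputable def avg {d : ℕ} (w : (Fin d → ℝ) → ℝ) (r : ℝ) (Q : Set (Fin d → ℝ)) : ℝ≥0∞ :=
  (volume Q)⁻¹ * ∫⁻ x in Q, ENNReal.ofReal (w x) ^ r

/-- The reverse Hölder constant `[w]_{RH_p}`. -/
noncomputable def RH {d : ℕ} (p : ℝ) (w : (Fin d → ℝ) → ℝ) : ℝ≥0∞ :=
  ⨆ (a : Fin d → ℝ) (h : ℝ) (_ : 0 < h), avg w p (cube a h) ^ (1 / p) / avg w 1 (cube a h)

open Pool.Agent.X189.GE in
theorem avg_cube_eq {d : ℕ} {w : (Fin d → ℝ) → ℝ} (hw0 : ∀ x, 0 < w x) (r : ℝ) (t : Nd d) :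
    avg w r (cube t.1 t.2) = (ENNReal.ofReal ((t.2 : ℝ) ^ d))⁻¹ *
      ∫⁻ x in box t, ENNReal.ofReal (w x ^ r) := by
  have h1 : volume (cube t.1 (t.2 : ℝ)) = ENNReal.ofReal ((t.2 : ℝ) ^ d) := by
    rw [← vol_box]
    exact (measure_congr (box_ae t)).symm
  have h2 : (volume : Measure (Fin d → ℝ)).restrict (cube t.1 (t.2 : ℝ)) =
      volume.restrict (box t) := (Measure.restrict_congr_set (box_ae t)).symm
  rw [avg, h1, h2]
  congr 1
  refine lintegral_congr fun x => ?_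
  rw [ENNReal.ofReal_rpow_of_pos (hw0 x)]

open Pool.Agent.X189.GE in
theorem avg_eq_av {d : ℕ} {w : (Fin d → ℝ) → ℝ} (hw0 : ∀ x, 0 < w x) {r : ℝ} {t : Nd d}
    (hi : IntegrableOn (fun x => w x ^ r) (box t)) :
    avg w r (cube t.1 t.2) = ENNReal.ofReal (av (fun x => w x ^ r) t) := by
  have h3 := t.2.2
  rw [avg_cube_eq hw0, av, setAverage_eq, volReal_box, smul_eq_mul,
    ENNReal.ofReal_mul (by positivity), ENNReal.ofReal_inv_of_pos (by positivity),
    ofReal_integral_eq_lintegral_ofReal hi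
      (Filter.Eventually.of_forall fun x => (Real.rpow_pos_of_pos (hw0 x) _).le)]

open Pool.Agent.X189.GE in
theorem result (d : ℕ) (p : ℝ) (hp : 1 < p) :
    ∃ c : ℝ, 0 < c ∧ ∀ w : (Fin d → ℝ) → ℝ, LocallyIntegrable w → (∀ x, 0 < w x) →
      RH p w < ∞ → ∀ (a : Fin d → ℝ) (h : ℝ), 0 < h → ∀ ε : ℝ, 0 < ε →
        ε ≤ c * (RH p w).toReal ^ (-p) →
        avg w (p + ε) (cube a h) ≤ 2 * RH p w ^ (p + ε) * avg w 1 (cube a h) ^ (p + ε) := by
  have hp1 : 0 < p - 1 := by linarith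
  have hp0 : 0 < p := by linarith
  have hq0 : 0 < (2 * (p / (p - 1))) ^ p := by positivity
  refine ⟨p / (2 * ((2 * (p / (p - 1))) ^ p * 2 ^ d)), by positivity, ?_⟩
  intro w hw hw0 hfin a h hh ε hε hεle
  set K : ℝ := (RH p w).toReal with hK
  have hKR : RH p w = ENNReal.ofReal K := (ENNReal.ofReal_toReal hfin.ne).symm
  have hw1 : ∀ t : Nd d, IntegrableOn (fun x => w x ^ (1 : ℝ)) (box t) := by
    intro t
    simpa using integrableOn_box hw t
  have hav1 : ∀ t : Nd d, av (fun x => w x ^ (1 : ℝ)) t = av w t := by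
    intro t
    simp [av]
  have hg0 : ∀ t : Nd d, 0 < av w t := fun t => av_pos hw hw0 t
  -- the reverse Hölder inequality, extended form
  have hle : ∀ t : Nd d, avg w p (cube t.1 t.2) ≤ ENNReal.ofReal (K * av w t) ^ p := by
    intro t
    have h1 : avg w p (cube t.1 t.2) ^ (1 / p) / avg w 1 (cube t.1 t.2) ≤ RH p w :=
      le_iSup_of_le t.1 (le_iSup_of_le (t.2 : ℝ) (le_iSup_of_le t.2.2 le_rfl))
    rw [avg_eq_av hw0 (hw1 t), hav1, hKR] at h1
    rw [ENNReal.div_le_iff_le_mul (Or.inl (by simpa using hg0 t)) (Or.inl ENNReal.ofReal_ne_top),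
      ← ENNReal.ofReal_mul (by positivity)] at h1
    have h2 := ENNReal.rpow_le_rpow h1 hp0.le
    rwa [← ENNReal.rpow_mul, one_div, inv_mul_cancel₀ hp0.ne', ENNReal.rpow_one] at h2
  -- integrability of `w ^ p`
  have hmeas : AEStronglyMeasurable (fun x => w x ^ p) volume :=
    ((Real.continuous_rpow_const hp0.le).comp_aestronglyMeasurable hw.aestronglyMeasurable)
  have hvbox : ∀ t : Nd d, IntegrableOn (fun x => w x ^ p) (box t) := by
    intro t
    have h3 := t.2.2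
    refine ⟨hmeas.restrict, ?_⟩
    have h1 := hle t
    rw [avg_cube_eq hw0] at h1
    have h2 : ENNReal.ofReal (K * av w t) ^ p < ∞ :=
      ENNReal.rpow_lt_top_of_nonneg hp0.le ENNReal.ofReal_ne_top
    have h4 := lt_of_le_of_lt h1 h2
    have h5 : (ENNReal.ofReal ((t.2 : ℝ) ^ d))⁻¹ ≠ 0 :=
      ENNReal.inv_ne_zero.2 ENNReal.ofReal_ne_top
    have h6 : ∫⁻ x in box t, ENNReal.ofReal (w x ^ p) < ∞ := by
      by_contra hcon
      rw [not_lt, top_le_iff] at hcon
      rw [hcon, ENNReal.mul_top h5] at h4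
      exact lt_irrefl _ h4
    rw [hasFiniteIntegral_iff_ofReal
      (Filter.Eventually.of_forall fun x => (Real.rpow_pos_of_pos (hw0 x) _).le)]
    exact h6
  have hv : LocallyIntegrable fun x => w x ^ p := by
    intro x
    refine ⟨box ((fun i => x i - 1), ⟨2, by norm_num⟩), ?_, hvbox _⟩
    refine Filter.mem_of_superset (Metric.ball_mem_nhds x (ε := 1) (by norm_num)) ?_
    intro y hy
    rw [Metric.mem_ball, dist_pi_lt_iff (by norm_num)] at hy
    rw [mem_box]
    intro i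
    have := hy i
    rw [Real.dist_eq, abs_lt] at this
    constructor
    · show x i - 1 ≤ y i
      linarith
    · show y i < x i - 1 + 2
      linarith
  have hRHreal : ∀ t : Nd d, av (fun x => w x ^ p) t ≤ K ^ p * av w t ^ p := by
    intro t
    have h1 := hle t
    rw [avg_eq_av hw0 (hvbox t),
      ENNReal.ofReal_rpow_of_nonneg (by have := hg0 t; positivity) hp0.le] at h1
    have h2 := (ENNReal.ofReal_le_ofReal_iff (by have := hg0 t; positivity)).1 h1
    rwa [Real.mul_rpow (by positivity) (hg0 t).le] at h2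
  set t : Nd d := (a, ⟨h, hh⟩) with ht
  -- the constant is at least one
  have hK1 : 1 ≤ K ^ p := by
    have h1 := (jensen hp hw hv hw0 t).trans (hRHreal t)
    have h2 : 0 < av w t ^ p := Real.rpow_pos_of_pos (hg0 t) _
    by_contra hcon
    push Not at hcon
    nlinarith
  have hK0 : 0 < K := by
    by_contra hcon
    have : K = 0 := le_antisymm (not_lt.1 hcon) ENNReal.toReal_nonneg
    rw [this, Real.zero_rpow hp0.ne'] at hK1
    linarith
  set δ : ℝ := ε / p with hδ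
  have hδ0 : 0 < δ := by positivity
  have hsmall : 2 * (K ^ p * (2 * (p / (p - 1))) ^ p * (2 ^ d * δ)) ≤ 1 := by
    rw [Real.rpow_neg hK0.le] at hεle
    have hKp : 0 < K ^ p := by linarith
    have h1 : δ ≤ 1 / (2 * ((2 * (p / (p - 1))) ^ p * 2 ^ d)) * (K ^ p)⁻¹ := by
      rw [hδ, div_le_iff₀ hp0]
      calc ε ≤ _ := hεle
        _ = _ := by ring
    calc 2 * (K ^ p * (2 * (p / (p - 1))) ^ p * (2 ^ d * δ))
        = 2 * (K ^ p * (2 * (p / (p - 1))) ^ p * 2 ^ d) * δ := by ring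
      _ ≤ 2 * (K ^ p * (2 * (p / (p - 1))) ^ p * 2 ^ d) *
          (1 / (2 * ((2 * (p / (p - 1))) ^ p * 2 ^ d)) * (K ^ p)⁻¹) :=
          mul_le_mul_of_nonneg_left h1 (by positivity)
      _ = 1 := by
          field_simp
  have hδ1 : δ ≤ 1 := by
    have hq1 : 1 ≤ (2 * (p / (p - 1))) ^ p := by
      refine Real.one_le_rpow ?_ hp0.le
      have : 1 ≤ p / (p - 1) := by
        rw [le_div_iff₀ hp1]; linarith
      linarith
    have h2d : (1 : ℝ) ≤ 2 ^ d := one_le_pow₀ (by norm_num)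
    have h1 : (1 : ℝ) ≤ K ^ p * (2 * (p / (p - 1))) ^ p * 2 ^ d := by
      have := one_le_mul_of_one_le_of_one_le hK1 hq1
      exact one_le_mul_of_one_le_of_one_le this h2d
    have h2 : δ ≤ K ^ p * (2 * (p / (p - 1))) ^ p * 2 ^ d * δ := by
      have := mul_le_mul_of_nonneg_right h1 hδ0.le
      linarith
    have h3 : 2 * (K ^ p * (2 * (p / (p - 1))) ^ p * (2 ^ d * δ)) =
      2 * (K ^ p * (2 * (p / (p - 1))) ^ p * 2 ^ d * δ) := by ring
    rw [h3] at hsmall
    linarith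
  have hmain := gehring_box hp (L := K ^ p) (by positivity) hw hv hw0 hRHreal hδ0 hδ1 hsmall t
  have hexp : p * (1 + δ) = p + ε := by
    rw [hδ]
    field_simp
  have hexp2 : ∀ x, (w x ^ p) ^ (1 + δ) = w x ^ (p + ε) := by
    intro x
    rw [← Real.rpow_mul (hw0 x).le, hexp]
  simp only [hexp2] at hmain
  have e1 : avg w (p + ε) (cube a h) ≤ ENNReal.ofReal (2 * av (fun x => w x ^ p) t ^ (1 + δ)) := by
    have h1 := avg_cube_eq hw0 (p + ε) t
    change avg w (p + ε) (cube a h) = _ at h1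
    rw [h1]
    have hpos : 0 < ((t.2 : ℝ) ^ d) := pow_pos t.2.2 _
    rw [ENNReal.ofReal_mul hpos.le] at hmain
    calc (ENNReal.ofReal ((t.2 : ℝ) ^ d))⁻¹ * ∫⁻ x in box t, ENNReal.ofReal (w x ^ (p + ε))
        ≤ (ENNReal.ofReal ((t.2 : ℝ) ^ d))⁻¹ * (ENNReal.ofReal ((t.2 : ℝ) ^ d) *
          ENNReal.ofReal (2 * av (fun x => w x ^ p) t ^ (1 + δ))) := by gcongr
      _ = _ := by
          rw [← mul_assoc, ENNReal.inv_mul_cancel (by simpa using hpos) ENNReal.ofReal_ne_top,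
            one_mul]
  have e2 : 2 * av (fun x => w x ^ p) t ^ (1 + δ) ≤ 2 * (K ^ (p + ε) * av w t ^ (p + ε)) := by
    have h1 : av (fun x => w x ^ p) t ^ (1 + δ) ≤ (K ^ p * av w t ^ p) ^ (1 + δ) := by
      refine Real.rpow_le_rpow ?_ (hRHreal t) (by linarith)
      exact (av_pos hv (fun x => Real.rpow_pos_of_pos (hw0 x) _) t).le
    rw [Real.mul_rpow (by positivity) (by have := hg0 t; positivity), ← Real.rpow_mul hK0.le,
      ← Real.rpow_mul (hg0 t).le, hexp] at h1
    linarith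
  have e3 : avg w 1 (cube a h) = ENNReal.ofReal (av w t) := by
    have h1 := avg_eq_av hw0 (hw1 t)
    rw [hav1] at h1
    exact h1
  refine e1.trans ((ENNReal.ofReal_le_ofReal e2).trans ?_)
  rw [e3, hKR, ENNReal.ofReal_rpow_of_pos hK0, ENNReal.ofReal_rpow_of_pos (hg0 t), mul_assoc,
    ← ENNReal.ofReal_mul (Real.rpow_nonneg hK0.le _), ENNReal.ofReal_mul (by norm_num)]
  simp

end Pool.Agent.Results.MP_edcda5_an.GehringExponent
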